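import Pool.Agent.W290.WA.Irr0
import Pool.Agent.W558.WA.Stms

/-!
IRR: irreducibility of Artin-Schreier polynomials.
-/

namespace Pool.Agent.W290.WA

universe u

theorem main : Pool.Agent.W558.WA_irr.{u} := by
  intro p hp L _ _ f hf
  exact irr p L f hf

end Pool.Agent.W290.WA
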