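import Mathlib

/-!
Irreducibility of Artin-Schreier polynomials.
-/

open Polynomial

namespace Pool.Agent.W290.WA

universe u

/-- The sum of elements each of which is `z` plus an element of the prime field. -/
theorem sum_shift {p : ℕ} [Fact p.Prime] {L K : Type*} [Field L] [Field K] [Algebra L K]
    [CharP L p] [CharP K p] (z : K) (s : Multiset K) (h : ∀ r ∈ s, (r - z) ^ p = r - z) :
    ∃ c : L, s.sum = (Multiset.card s : K) * z + algebraMap L K c := by
  induction s using Multiset.induction_on with
  | empty => exact ⟨0, by simp⟩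
  | cons a s ih =>
    obtain ⟨c, hc⟩ := ih (fun r hr => h r (Multiset.mem_cons_of_mem hr))
    have ha : (a - z) ^ p = a - z := h a (Multiset.mem_cons_self a s)
    have ha' : (a - z) ∈ (⊥ : Subfield K) := (Subfield.mem_bot_iff_pow_eq_self K p).2 ha
    obtain ⟨n, hn⟩ := (mem_bot_iff_intCast p K).1 ha'
    refine ⟨(n : L) + c, ?_⟩
    have h1 : a = (n : K) + z := by rw [hn]; ring
    rw [Multiset.sum_cons, hc, Multiset.card_cons, map_add, map_intCast, h1, Nat.cast_add,
      Nat.cast_one]
    ring

theorem irr (p : ℕ) [hp : Fact p.Prime] (L : Type u) [Field L] [CharP L p] (f : L)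
    (hf : ∀ b : L, b ^ p - b ≠ f) : Irreducible (X ^ p - X - C f : L[X]) := by
  have hp1 : 1 < p := hp.out.one_lt
  set g : L[X] := X ^ p - X - C f with hg
  have hdX : (X ^ p - X : L[X]).natDegree = p := FiniteField.X_pow_card_sub_X_natDegree_eq L hp1
  have hgd : g.natDegree = p := by
    rw [hg, natDegree_sub_C, hdX]
  have hgm : g.Monic := by
    have h1 : g = X ^ p - (X + C f) := by rw [hg]; ring
    rw [h1]
    apply monic_X_pow_sub
    rw [degree_X_add_C]
    exact_mod_cast hp1
  let K := AlgebraicClosure L
  have : CharP K p := charP_of_injective_algebraMap (algebraMap L K).injective p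
  obtain ⟨z, hz⟩ := IsAlgClosed.exists_aeval_eq_zero K g (by
    rw [degree_eq_natDegree hgm.ne_zero, hgd]
    exact_mod_cast (by omega : p ≠ 0))
  have hz' : z ^ p - z = algebraMap L K f := by
    have : aeval z g = z ^ p - z - algebraMap L K f := by simp [hg]
    rw [this] at hz
    exact sub_eq_zero.1 hz
  have hint : IsIntegral L z := ⟨g, hgm, by simpa [aeval_def] using hz⟩
  set m := minpoly L z with hm
  have hmm : m.Monic := minpoly.monic hint
  have hdvd : m ∣ g := minpoly.dvd L z hz
  have hmK : (m.map (algebraMap L K)).Monic := hmm.map _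
  have hsp : (m.map (algebraMap L K)).Splits := IsAlgClosed.splits _
  have hroots : ∀ r ∈ (m.map (algebraMap L K)).roots, (r - z) ^ p = r - z := by
    intro r hr
    have h1 : aeval r m = 0 := by
      have := (mem_roots hmK.ne_zero).1 hr
      rwa [IsRoot.def, eval_map_algebraMap] at this
    have h2 : aeval r g = 0 := by
      obtain ⟨q, hq⟩ := hdvd
      rw [hq, map_mul, h1, zero_mul]
    have h3 : r ^ p - r = algebraMap L K f := by
      have : aeval r g = r ^ p - r - algebraMap L K f := by simp [hg]
      rw [this] at h2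
      exact sub_eq_zero.1 h2
    rw [sub_pow_char]
    linear_combination h3 - hz'
  obtain ⟨c, hc⟩ := sum_shift (p := p) (L := L) z _ hroots
  have hcard : Multiset.card (m.map (algebraMap L K)).roots = m.natDegree := by
    rw [splits_iff_card_roots.1 hsp, natDegree_map]
  have hnext := hsp.nextCoeff_eq_neg_sum_roots_of_monic hmK
  rw [hc, hcard, nextCoeff_map_eq] at hnext
  have hle : m.natDegree ≤ p := hgd ▸ natDegree_le_of_dvd hdvd hgm.ne_zero
  have hpos : 0 < m.natDegree := minpoly.natDegree_pos hint
  rcases Nat.lt_or_ge m.natDegree p with hlt | hge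
  · exfalso
    have hne : ((m.natDegree : ℕ) : L) ≠ 0 := by
      rw [Ne, CharP.cast_eq_zero_iff L p]
      exact Nat.not_dvd_of_pos_of_lt hpos hlt
    have hneK : ((m.natDegree : ℕ) : K) ≠ 0 := by
      rw [Ne, CharP.cast_eq_zero_iff K p]
      exact Nat.not_dvd_of_pos_of_lt hpos hlt
    have hzL : z = algebraMap L K ((-m.nextCoeff - c) / (m.natDegree : L)) := by
      rw [map_div₀, map_sub, map_neg, map_natCast, hnext, eq_div_iff hneK]
      ring
    apply hf ((-m.nextCoeff - c) / (m.natDegree : L))
    apply (algebraMap L K).injective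
    rw [map_sub, map_pow, ← hzL, hz']
  · have hEq : m = g := by
      symm
      apply eq_of_monic_of_dvd_of_natDegree_le hmm hgm hdvd
      rw [hgd]; exact hge
    rw [← hEq]
    exact minpoly.irreducible hint

end Pool.Agent.W290.WA
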